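import Mathlib
import Pool.Agent.SPT.RelG
import Pool.Agent.TRJ.Lead

/-!
# NZX, module Pair: the coefficients at a flat and at its union with a parallel class (helper3)
-/

set_option autoImplicit false
set_option linter.unusedSectionVars false

open Submodule Module

namespace Pool.Agent.NZX

open Pool.Agent.SPT Pool.Agent.SPT.Rel Pool.Agent.SPT.Odd

variable {V : Type} [AddCommGroup V] [Module (ZMod 2) V] [DecidableEq V]

/-- the span of a set with one element of the class `C` -/
theorem span_class (G C A B : Finset V) (b : V) (hc : ∀ c ∈ C, b + c ∈ span (ZMod 2) (G : Set V))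
    (hA : A ⊆ C) (hA0 : A.Nonempty) (hG : G ⊆ B) :
    span (ZMod 2) ((A ∪ B : Finset V) : Set V) = span (ZMod 2) ((C ∪ B : Finset V) : Set V) := by
  refine le_antisymm (span_mono (Finset.coe_subset.2
    (Finset.union_subset_union hA (Finset.Subset.refl B)))) ?_
  obtain ⟨a, ha⟩ := hA0
  have hGs : span (ZMod 2) (G : Set V) ≤ span (ZMod 2) ((A ∪ B : Finset V) : Set V) :=
    span_mono (Finset.coe_subset.2 (hG.trans Finset.subset_union_right))
  have ha1 : a ∈ span (ZMod 2) ((A ∪ B : Finset V) : Set V) :=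
    subset_span (Finset.mem_coe.2 (Finset.mem_union_left B ha))
  rw [span_le]
  intro v hv
  rw [Finset.mem_coe, Finset.mem_union] at hv
  rcases hv with hv | hv
  · have h1 : v = (b + v) + (b + a) + a := by
      have h2 := add_self_two (V := V) b
      have h3 := add_self_two (V := V) a
      calc v = v + (b + b) + (a + a) := by rw [h2, h3, add_zero, add_zero]
        _ = (b + v) + (b + a) + a := by abel
    rw [SetLike.mem_coe, h1]
    exact add_mem (add_mem (hGs (hc v hv)) (hGs (hc a (hA ha)))) ha1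
  · exact subset_span (Finset.mem_coe.2 (Finset.mem_union_right A hv))

open Classical in
/-- **The coefficients at `G` and at `G ∪ C`**, `C` a parallel class of `X / G`. -/
theorem cc_pair (X G C : Finset V) (b : V) (hCX : C ⊆ X) (hbC : b ∈ C) (hGX : G ⊆ X \ C)
    (hc : ∀ c ∈ C, b + c ∈ span (ZMod 2) (G : Set V)) :
    cc X G + cc X (G ∪ C) =
      if Spans ⊥ X (X \ C) then cc (X \ C) G else 0 := by
  classical
  have hdis : ∀ A ⊆ C, ∀ B ⊆ X \ C, Disjoint A B := by
    intro A hA B hB
    rw [Finset.disjoint_left]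
    intro v hv hv2
    exact (Finset.mem_sdiff.1 (hB hv2)).2 (hA hv)
  -- the part of the coefficient
  obtain ⟨g, hg⟩ : ∃ g : Finset V → ℤ, g = fun B =>
      if Spans ⊥ X (C ∪ B) ∧ G ⊆ B then (-1) ^ (B \ G).card else 0 := ⟨_, rfl⟩
  obtain ⟨k, hk⟩ : ∃ k : Finset V → ℤ, k = fun B =>
      if Spans ⊥ X B ∧ G ⊆ B then (-1) ^ (B \ G).card else 0 := ⟨_, rfl⟩
  have hGiff : ∀ A ⊆ C, ∀ B : Finset V, (G ⊆ A ∪ B ↔ G ⊆ B) := by
    intro A hA B
    constructor
    · intro h v hv
      rcases Finset.mem_union.1 (h hv) with h1 | h1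
      · exact absurd (hA h1) (Finset.mem_sdiff.1 (hGX hv)).2
      · exact h1
    · intro h
      exact h.trans Finset.subset_union_right
  have hcard : ∀ A ⊆ C, ∀ B ⊆ X \ C, ((A ∪ B) \ G).card = A.card + (B \ G).card := by
    intro A hA B hB
    have h1 : (A ∪ B) \ G = A ∪ (B \ G) := by
      ext v
      rw [Finset.mem_sdiff, Finset.mem_union, Finset.mem_union, Finset.mem_sdiff]
      constructor
      · rintro ⟨h1 | h1, h2⟩
        · exact Or.inl h1
        · exact Or.inr ⟨h1, h2⟩
      · rintro (h1 | ⟨h1, h2⟩)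
        · exact ⟨Or.inl h1, fun h => (Finset.mem_sdiff.1 (hGX h)).2 (hA h1)⟩
        · exact ⟨Or.inr h1, h2⟩
    rw [h1, Finset.card_union_of_disjoint (hdis A hA _ (Finset.sdiff_subset.trans hB))]
  have hX : cc X G = ∑ A ∈ C.powerset, ∑ B ∈ (X \ C).powerset,
      if A = ∅ then k B else (-1) ^ A.card * g B := by
    unfold cc
    rw [TRJ.sum_split X C hCX]
    refine Finset.sum_congr rfl fun A hA => Finset.sum_congr rfl fun B hB => ?_
    rw [Finset.mem_powerset] at hA hB
    by_cases hA0 : A = ∅
    · rw [if_pos hA0, hk, hA0, Finset.empty_union]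
    · rw [if_neg hA0, hg]
      beta_reduce
      rw [hcard A hA B hB]
      by_cases hGB : G ⊆ B
      · have hsp : Spans ⊥ X (A ∪ B) ↔ Spans ⊥ X (C ∪ B) := by
          unfold Spans
          rw [span_class G C A B b hc hA (Finset.nonempty_iff_ne_empty.2 hA0) hGB]
        by_cases hs : Spans ⊥ X (C ∪ B)
        · rw [if_pos ⟨hsp.2 hs, (hGiff A hA B).2 hGB⟩, if_pos ⟨hs, hGB⟩, pow_add]
        · rw [if_neg (fun h => hs (hsp.1 h.1)), if_neg (fun h => hs h.1), mul_zero]
      · rw [if_neg (fun h => hGB ((hGiff A hA B).1 h.2)), if_neg (fun h => hGB h.2), mul_zero]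
  have hXC : cc X (G ∪ C) = ∑ B ∈ (X \ C).powerset, g B := by
    unfold cc
    rw [TRJ.sum_split X C hCX, Finset.sum_eq_single C]
    · refine Finset.sum_congr rfl fun B hB => ?_
      rw [Finset.mem_powerset] at hB
      rw [hg]
      beta_reduce
      have h1 : G ∪ C ⊆ C ∪ B ↔ G ⊆ B := by
        constructor
        · intro h
          exact (hGiff C (Finset.Subset.refl C) B).1 (Finset.subset_union_left.trans h)
        · intro h
          exact Finset.union_subset (h.trans Finset.subset_union_right) Finset.subset_union_left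
      have h2 : (C ∪ B) \ (G ∪ C) = B \ G := by
        ext v
        rw [Finset.mem_sdiff, Finset.mem_union, Finset.mem_union, Finset.mem_sdiff]
        constructor
        · rintro ⟨h1 | h1, h2⟩
          · exact absurd (Or.inr h1) h2
          · exact ⟨h1, fun h => h2 (Or.inl h)⟩
        · rintro ⟨h1, h2⟩
          refine ⟨Or.inr h1, ?_⟩
          rintro (h | h)
          · exact h2 h
          · exact (Finset.mem_sdiff.1 (hB h1)).2 h
      rw [h2]
      by_cases h3 : G ⊆ B
      · by_cases h4 : Spans ⊥ X (C ∪ B)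
        · rw [if_pos ⟨h4, h1.2 h3⟩, if_pos ⟨h4, h3⟩]
        · rw [if_neg (fun h => h4 h.1), if_neg (fun h => h4 h.1)]
      · rw [if_neg (fun h => h3 (h1.1 h.2)), if_neg (fun h => h3 h.2)]
    · intro A hA hAC
      rw [Finset.mem_powerset] at hA
      refine Finset.sum_eq_zero fun B hB => ?_
      rw [Finset.mem_powerset] at hB
      rw [if_neg]
      rintro ⟨-, h⟩
      refine hAC (Finset.Subset.antisymm hA fun v hv => ?_)
      rcases Finset.mem_union.1 (h (Finset.mem_union_right G hv)) with h1 | h1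
      · exact h1
      · exact absurd hv (Finset.mem_sdiff.1 (hB h1)).2
    · intro h
      exact absurd (Finset.mem_powerset_self C) h
  have hsum : cc X G = ∑ B ∈ (X \ C).powerset, k B - ∑ B ∈ (X \ C).powerset, g B := by
    rw [hX]
    have h1 : ∀ A ∈ C.powerset, (∑ B ∈ (X \ C).powerset,
        if A = ∅ then k B else (-1) ^ A.card * g B) =
        (if A = ∅ then ∑ B ∈ (X \ C).powerset, k B - ∑ B ∈ (X \ C).powerset, g B else 0) +
          (-1) ^ A.card * ∑ B ∈ (X \ C).powerset, g B := by
      intro A _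
      by_cases hA0 : A = ∅
      · rw [if_pos hA0, hA0, Finset.card_empty, pow_zero, one_mul, sub_add_cancel]
        exact Finset.sum_congr rfl fun B _ => if_pos rfl
      · rw [if_neg hA0, zero_add, Finset.mul_sum]
        exact Finset.sum_congr rfl fun B _ => if_neg hA0
    rw [Finset.sum_congr rfl h1, Finset.sum_add_distrib, ← Finset.sum_mul,
      Finset.sum_powerset_neg_one_pow_card_of_nonempty ⟨b, hbC⟩, zero_mul, add_zero,
      Finset.sum_ite_eq', if_pos (Finset.empty_mem_powerset C)]
  rw [hsum, hXC, sub_add_cancel]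
  by_cases hs : Spans ⊥ X (X \ C)
  · rw [if_pos hs, hk]
    unfold cc
    refine Finset.sum_congr rfl fun B _ => ?_
    have h1 : Spans ⊥ (X \ C) B ↔ Spans ⊥ X B := by
      unfold Spans at hs ⊢
      rw [hs]
    beta_reduce
    by_cases h2 : Spans ⊥ X B ∧ G ⊆ B
    · rw [if_pos h2, if_pos ⟨h1.2 h2.1, h2.2⟩]
    · rw [if_neg h2, if_neg (fun h => h2 ⟨h1.1 h.1, h.2⟩)]
  · rw [if_neg hs, hk]
    refine Finset.sum_eq_zero fun B hB => ?_
    rw [Finset.mem_powerset] at hB
    rw [if_neg]
    rintro ⟨h1, -⟩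
    apply hs
    unfold Spans at h1 ⊢
    refine le_antisymm (sup_le_sup_left (span_mono (Finset.coe_subset.2
      Finset.sdiff_subset)) ⊥) ?_
    rw [← h1]
    exact sup_le_sup_left (span_mono (Finset.coe_subset.2 hB)) ⊥

end Pool.Agent.NZX
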