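import Mathlib
import Pool.Agent.NZX.Pair

/-!
# NZX, module Fun: functionals and sums (helper3)
-/

set_option autoImplicit false
set_option linter.unusedSectionVars false

open Submodule Module

namespace Pool.Agent.NZX

open Pool.Agent.SPT Pool.Agent.SPT.Rel Pool.Agent.SPT.Odd

variable {V : Type} [AddCommGroup V] [Module (ZMod 2) V] [DecidableEq V]

/-! ### functionals -/

theorem exF (S : Set V) (x : V) (h : x ∉ span (ZMod 2) S) :
    ∃ φ : V →ₗ[ZMod 2] ZMod 2, φ x = 1 ∧ ∀ v ∈ S, φ v = 0 := by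
  obtain ⟨φ, hφ, hφW⟩ := Submodule.exists_le_ker_of_notMem h
  exact ⟨φ, (zmod2_cases (φ x)).resolve_left hφ, fun w hw => hφW (subset_span hw)⟩

theorem zero_of_span (S : Set V) (x : V) (φ : V →ₗ[ZMod 2] ZMod 2) (hS : ∀ v ∈ S, φ v = 0)
    (hx : x ∈ span (ZMod 2) S) : φ x = 0 := by
  have h2 : span (ZMod 2) S ≤ LinearMap.ker φ := span_le.2 hS
  exact h2 hx

/-- change of a functional -/
theorem exF' (S : Set V) (l : V →ₗ[ZMod 2] ZMod 2) (b c : V) (hS : ∀ v ∈ S, l v = 0)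
    (hb : l b = 1) (hc : l c = 1) (h : b + c ∉ span (ZMod 2) S) :
    ∃ φ : V →ₗ[ZMod 2] ZMod 2, φ b = 1 ∧ φ c = 0 ∧ ∀ v ∈ S, φ v = 0 := by
  obtain ⟨ψ, hψ, hψS⟩ := exF S _ h
  rw [map_add] at hψ
  rcases zmod2_cases (ψ b) with h1 | h1
  · rw [h1, zero_add] at hψ
    refine ⟨l + ψ, ?_, ?_, ?_⟩
    · rw [LinearMap.add_apply, hb, h1, add_zero]
    · rw [LinearMap.add_apply, hc, hψ]
      decide
    · intro v hv
      rw [LinearMap.add_apply, hS v hv, hψS v hv, add_zero]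
  · rcases zmod2_cases (ψ c) with h2 | h2
    · exact ⟨ψ, h1, h2, hψS⟩
    · rw [h1, h2] at hψ
      exact absurd hψ (by decide)

/-! ### sums -/

theorem su_le_pos {u : V → ℤ} {A B : Finset V} (h : A ⊆ B) (hp : ∀ v ∈ B, v ∉ A → 0 < u v) :
    su u A ≤ su u B ∧ (su u A = su u B → A = B) := by
  have h1 : su u B = su u A + su u (B \ A) := by
    unfold su
    rw [add_comm, Finset.sum_sdiff h]
  have h2 : 0 ≤ su u (B \ A) := by
    refine Finset.sum_nonneg fun v hv => ?_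
    rw [Finset.mem_sdiff] at hv
    exact (hp v hv.1 hv.2).le
  refine ⟨by omega, fun h3 => Finset.Subset.antisymm h fun v hv => ?_⟩
  by_contra hvA
  have h4 : 0 < su u (B \ A) := by
    refine Finset.sum_pos (fun w hw => ?_) ⟨v, Finset.mem_sdiff.2 ⟨hv, hvA⟩⟩
    rw [Finset.mem_sdiff] at hw
    exact hp w hw.1 hw.2
  omega

theorem su_le_neg {u : V → ℤ} {A B : Finset V} (h : A ⊆ B) (hp : ∀ v ∈ B, v ∉ A → u v < 0) :
    su u B ≤ su u A ∧ (su u B = su u A → A = B) := by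
  have h1 : su u B = su u A + su u (B \ A) := by
    unfold su
    rw [add_comm, Finset.sum_sdiff h]
  have h2 : su u (B \ A) ≤ 0 := by
    refine Finset.sum_nonpos fun v hv => ?_
    rw [Finset.mem_sdiff] at hv
    exact (hp v hv.1 hv.2).le
  refine ⟨by omega, fun h3 => Finset.Subset.antisymm h fun v hv => ?_⟩
  by_contra hvA
  have h4 : 0 < su (fun v => - u v) (B \ A) := by
    refine Finset.sum_pos (fun w hw => ?_) ⟨v, Finset.mem_sdiff.2 ⟨hv, hvA⟩⟩
    rw [Finset.mem_sdiff] at hw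
    have := hp w hw.1 hw.2
    omega
  have h5 : su (fun v => - u v) (B \ A) = - su u (B \ A) := by
    unfold su
    rw [Finset.sum_neg_distrib]
  omega

/-- the positive elements -/
def pos (X : Finset V) (u : V → ℤ) : Finset V := X.filter fun v => 0 < u v

/-- the positive elements in the kernel of a functional -/
def hyp (X : Finset V) (u : V → ℤ) (φ : V →ₗ[ZMod 2] ZMod 2) : Finset V :=
  (pos X u).filter fun v => φ v = 0

/-- the positive elements outside of the kernel of a functional -/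
def one (X : Finset V) (u : V → ℤ) (φ : V →ₗ[ZMod 2] ZMod 2) : Finset V :=
  (pos X u).filter fun v => φ v = 1

/-- the sum over the positive elements outside of the kernel -/
def lam (X : Finset V) (u : V → ℤ) (φ : V →ₗ[ZMod 2] ZMod 2) : ℤ := su u (one X u φ)

theorem mem_pos {X : Finset V} {u : V → ℤ} {v : V} : v ∈ pos X u ↔ v ∈ X ∧ 0 < u v :=
  Finset.mem_filter

theorem mem_hyp {X : Finset V} {u : V → ℤ} {φ : V →ₗ[ZMod 2] ZMod 2} {v : V} :
    v ∈ hyp X u φ ↔ v ∈ pos X u ∧ φ v = 0 :=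
  Finset.mem_filter

theorem mem_one {X : Finset V} {u : V → ℤ} {φ : V →ₗ[ZMod 2] ZMod 2} {v : V} :
    v ∈ one X u φ ↔ v ∈ pos X u ∧ φ v = 1 :=
  Finset.mem_filter

theorem pos_sub (X : Finset V) (u : V → ℤ) : pos X u ⊆ X := Finset.filter_subset _ _

theorem lam_nonneg (X : Finset V) (u : V → ℤ) (φ : V →ₗ[ZMod 2] ZMod 2) : 0 ≤ lam X u φ :=
  Finset.sum_nonneg fun _ hv => (mem_pos.1 (mem_one.1 hv).1).2.le

theorem su_hyp (X : Finset V) (u : V → ℤ) (φ : V →ₗ[ZMod 2] ZMod 2) :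
    su u (hyp X u φ) + lam X u φ = su u (pos X u) := by
  unfold lam su hyp one
  rw [← Finset.sum_filter_add_sum_filter_not (pos X u) (fun v => φ v = 0)]
  congr 1
  refine Finset.sum_congr ?_ fun _ _ => rfl
  refine Finset.filter_congr fun v _ => ?_
  constructor
  · intro h h1
    rw [h] at h1
    exact one_ne_zero h1
  · exact fun h => (zmod2_cases (φ v)).resolve_left h

/-- a smaller functional -/
theorem lam_lt (X : Finset V) (u : V → ℤ) (φ ψ : V →ₗ[ZMod 2] ZMod 2)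
    (h : ∀ v ∈ pos X u, φ v = 0 → ψ v = 0) (c : V) (hc : c ∈ pos X u) (h1 : φ c = 1)
    (h2 : ψ c = 0) : lam X u ψ < lam X u φ := by
  have h3 : one X u ψ ⊆ one X u φ := by
    intro v hv
    rw [mem_one] at hv ⊢
    refine ⟨hv.1, (zmod2_cases (φ v)).resolve_left fun h4 => ?_⟩
    rw [h v hv.1 h4] at hv
    exact zero_ne_one hv.2
  have h4 := su_le_pos (u := u) h3 fun v hv _ => (mem_pos.1 (mem_one.1 hv).1).2
  refine lt_of_le_of_ne h4.1 fun h5 => ?_
  have h6 : c ∈ one X u ψ := by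
    rw [h4.2 h5]
    exact mem_one.2 ⟨hc, h1⟩
  rw [mem_one, h2] at h6
  exact zero_ne_one h6.2

/-- the smallest functional -/
theorem minF (X : Finset V) (u : V → ℤ) (Q : (V →ₗ[ZMod 2] ZMod 2) → Prop) (hQ : ∃ φ, Q φ) :
    ∃ φ, Q φ ∧ ∀ ψ, Q ψ → lam X u φ ≤ lam X u ψ := by
  classical
  have hex : ∃ n : ℕ, ∃ φ, Q φ ∧ (lam X u φ).toNat = n := by
    obtain ⟨φ, hφ⟩ := hQ
    exact ⟨_, φ, hφ, rfl⟩
  obtain ⟨φ, hφ, hn⟩ := Nat.find_spec hex
  refine ⟨φ, hφ, fun ψ hψ => ?_⟩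
  have h1 := Nat.find_min' hex ⟨ψ, hψ, rfl⟩
  have h2 := lam_nonneg X u φ
  have h3 := lam_nonneg X u ψ
  omega

/-- the bound for the sets in the kernel -/
theorem bound_ker (X : Finset V) (u : V → ℤ) (hu : ∀ v ∈ X, u v ≠ 0) (F : Finset V)
    (hF : F ⊆ X) (φ : V →ₗ[ZMod 2] ZMod 2) (hφ : ∀ v ∈ F, φ v = 0) :
    su u F + lam X u φ ≤ su u (pos X u) ∧
      (su u F + lam X u φ = su u (pos X u) → F = hyp X u φ) := by
  have h1 := su_le_neg (u := u) (A := F ∩ pos X u) (B := F) Finset.inter_subset_left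
    fun v hv hv2 => by
      have h2 := hu v (hF hv)
      by_contra h3
      exact hv2 (Finset.mem_inter.2 ⟨hv, mem_pos.2 ⟨hF hv, by omega⟩⟩)
  have h2 := su_le_pos (u := u) (A := F ∩ pos X u) (B := hyp X u φ)
    (fun v hv => by
      rw [Finset.mem_inter] at hv
      exact mem_hyp.2 ⟨hv.2, hφ v hv.1⟩) fun v hv _ => (mem_pos.1 (mem_hyp.1 hv).1).2
  have h3 := su_hyp X u φ
  refine ⟨by omega, fun h4 => ?_⟩
  rw [← h1.2 (by omega), h2.2 (by omega)]

/-- the bound for the sets with the exceptional element -/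
theorem bound_mem (X : Finset V) (u : V → ℤ) (hu : ∀ v ∈ X, u v ≠ 0) (F : Finset V)
    (hF : F ⊆ X) (b : V) (hbF : b ∈ F) (hb : u b < 0) :
    su u F + su u (pos X u \ F) ≤ su u (pos X u) + u b ∧
      (su u F = su u (pos X u) + u b → F = insert b (pos X u)) := by
  have hbP : b ∉ F ∩ pos X u := by
    intro h
    have h1 := (mem_pos.1 (Finset.mem_inter.1 h).2).2
    omega
  have h0 : su u (insert b (F ∩ pos X u)) = u b + su u (F ∩ pos X u) := by
    unfold su
    rw [Finset.sum_insert hbP]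
  have h1 := su_le_neg (u := u) (A := insert b (F ∩ pos X u)) (B := F)
    (Finset.insert_subset hbF Finset.inter_subset_left)
    fun v hv hv2 => by
      have h2 := hu v (hF hv)
      by_contra h3
      exact hv2 (Finset.mem_insert_of_mem
        (Finset.mem_inter.2 ⟨hv, mem_pos.2 ⟨hF hv, by omega⟩⟩))
  have h2 : su u (pos X u \ F) + su u (F ∩ pos X u) = su u (pos X u) := by
    unfold su
    rw [Finset.inter_comm, ← Finset.sum_union (Finset.disjoint_sdiff_inter _ _),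
      Finset.sdiff_union_inter]
  have h3 := su_le_pos (u := u) (A := F ∩ pos X u) (B := pos X u) Finset.inter_subset_right
    fun v hv _ => (mem_pos.1 hv).2
  refine ⟨by omega, fun h4 => ?_⟩
  have h5 := h1.2 (by omega)
  rw [← h3.2 (by omega)]
  conv_lhs => rw [← h5]

end Pool.Agent.NZX
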