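import Mathlib
import Pool.Agent.NZX.Fun

/-!
# NZX, module Coc: existence of a cocircuit of weight zero (helper3)
-/

set_option autoImplicit false
set_option linter.unusedSectionVars false

open Submodule Module

namespace Pool.Agent.NZX

open Pool.Agent.SPT Pool.Agent.SPT.Rel Pool.Agent.SPT.Odd

variable {V : Type} [AddCommGroup V] [Module (ZMod 2) V] [DecidableEq V]

/-- the situation with one exceptional element `b` -/
structure Exc (X : Finset V) (u : V → ℤ) (b : V) : Prop where
  h0 : (0 : V) ∉ X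
  hu : ∀ v ∈ X, u v ≠ 0
  hbX : b ∈ X
  hb : u b < 0
  hbs : b ∈ span (ZMod 2) ((pos X u : Finset V) : Set V)
  hN : ∀ v ∈ X, v ∈ span (ZMod 2) ((pos X u : Finset V) : Set V) → v ∈ pos X u ∨ v = b

variable {X : Finset V} {u : V → ℤ} {b : V}

theorem Exc.bP (h : Exc X u b) : b ∉ pos X u := fun h1 => by
  have h2 := (mem_pos.1 h1).2
  have h3 := h.hb
  omega

theorem Exc.flatN (h : Exc X u b) : Flat X (insert b (pos X u)) := by
  refine ⟨Finset.insert_subset h.hbX (pos_sub X u), fun v hv hvs => ?_⟩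
  have h1 : span (ZMod 2) ((insert b (pos X u) : Finset V) : Set V) ≤
      span (ZMod 2) ((pos X u : Finset V) : Set V) := by
    rw [span_le, Finset.coe_insert]
    intro w hw
    rcases Set.mem_insert_iff.1 hw with rfl | hw
    · exact h.hbs
    · exact subset_span hw
  rcases h.hN v hv (h1 hvs) with h2 | h2
  · exact Finset.mem_insert_of_mem h2
  · rw [h2]
    exact Finset.mem_insert_self _ _

theorem hyp_ker (φ : V →ₗ[ZMod 2] ZMod 2) :
    ∀ v ∈ ((hyp X u φ : Finset V) : Set V), φ v = 0 :=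
  fun _ hv => (mem_hyp.1 (Finset.mem_coe.1 hv)).2

theorem Exc.flatH (h : Exc X u b) (φ : V →ₗ[ZMod 2] ZMod 2) (hφ : φ b = 1) :
    Flat X (hyp X u φ) := by
  refine ⟨(Finset.filter_subset _ _).trans (pos_sub X u), fun v hv hvs => ?_⟩
  have h1 : φ v = 0 := zero_of_span _ v φ (hyp_ker φ) hvs
  have h2 : v ∈ span (ZMod 2) ((pos X u : Finset V) : Set V) :=
    span_mono (Finset.coe_subset.2 (Finset.filter_subset _ _)) hvs
  rcases h.hN v hv h2 with h3 | h3
  · exact mem_hyp.2 ⟨h3, h1⟩
  · rw [h3, hφ] at h1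
    exact absurd h1 one_ne_zero

/-- all the elements outside of the kernel are parallel modulo the kernel -/
def Par (X : Finset V) (u : V → ℤ) (b : V) (φ : V →ₗ[ZMod 2] ZMod 2) : Prop :=
  ∀ c ∈ pos X u, φ c = 1 → b + c ∈ span (ZMod 2) ((hyp X u φ : Finset V) : Set V)

theorem notMem_hyp (φ : V →ₗ[ZMod 2] ZMod 2) (hφ : φ b = 1) :
    b ∉ span (ZMod 2) ((hyp X u φ : Finset V) : Set V) := by
  intro h1
  have h2 := zero_of_span _ b φ (hyp_ker φ) h1
  rw [hφ] at h2
  exact one_ne_zero h2

theorem Exc.rank (h : Exc X u b) (φ : V →ₗ[ZMod 2] ZMod 2) (hφ : φ b = 1)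
    (hp : Par X u b φ) :
    finrank (ZMod 2) (span (ZMod 2) ((hyp X u φ : Finset V) : Set V)) + 1 =
      finrank (ZMod 2) (span (ZMod 2) ((pos X u : Finset V) : Set V)) := by
  rw [← finrank_sup_one _ b (notMem_hyp φ hφ)]
  have h1 : span (ZMod 2) ((hyp X u φ : Finset V) : Set V) ⊔ span (ZMod 2) {b} =
      span (ZMod 2) ((pos X u : Finset V) : Set V) := by
    refine le_antisymm (sup_le (span_mono (Finset.coe_subset.2 (Finset.filter_subset _ _))) ?_) ?_
    · rw [span_singleton_le_iff_mem]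
      exact h.hbs
    · rw [span_le]
      intro v hv
      rw [Finset.mem_coe] at hv
      rcases zmod2_cases (φ v) with h2 | h2
      · exact mem_sup_left (subset_span (Finset.mem_coe.2 (mem_hyp.2 ⟨hv, h2⟩)))
      · have h3 : v = (b + v) + b := by
          rw [add_comm b v, add_assoc, add_self_two, add_zero]
        rw [SetLike.mem_coe, h3]
        exact add_mem (mem_sup_left (hp v hv h2)) (mem_sup_right (mem_span_singleton_self b))
  rw [h1]

/-- the smallest functionals have this property -/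
theorem par_of_min (φ : V →ₗ[ZMod 2] ZMod 2) (hφ : φ b = 1)
    (hmin : ∀ ψ : V →ₗ[ZMod 2] ZMod 2, ψ b = 1 → (∀ v ∈ pos X u, φ v = 0 → ψ v = 0) →
      lam X u φ ≤ lam X u ψ) : Par X u b φ := by
  intro c hc hφc
  by_contra hno
  obtain ⟨ψ, h1, h2, h3⟩ := exF' _ φ b c (hyp_ker φ) hφ hφc hno
  have h4 : ∀ v ∈ pos X u, φ v = 0 → ψ v = 0 := fun v hv hv0 =>
    h3 v (Finset.mem_coe.2 (mem_hyp.2 ⟨hv, hv0⟩))
  exact absurd (lam_lt X u φ ψ h4 c hc hφc h2) (not_lt.2 (hmin ψ h1 h4))

/-- the sign of the coefficients at the sets `hyp` -/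
noncomputable def sg (X : Finset V) (u : V → ℤ) : ℤ :=
  (-1) ^ (finrank (ZMod 2) (span (ZMod 2) ((pos X u : Finset V) : Set V)) + 1 +
    finrank (ZMod 2) (span (ZMod 2) (X : Set V)))

theorem Exc.sg_eq (h : Exc X u b) (φ : V →ₗ[ZMod 2] ZMod 2) (hφ : φ b = 1)
    (hp : Par X u b φ) : sg X u =
      (-1) ^ (finrank (ZMod 2) (span (ZMod 2) ((hyp X u φ : Finset V) : Set V)) +
        finrank (ZMod 2) (span (ZMod 2) (X : Set V))) := by
  have h2 := h.rank φ hφ hp
  unfold sg
  rw [← h2]
  have h3 : finrank (ZMod 2) (span (ZMod 2) ((hyp X u φ : Finset V) : Set V)) + 1 + 1 +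
      finrank (ZMod 2) (span (ZMod 2) (X : Set V)) =
      (finrank (ZMod 2) (span (ZMod 2) ((hyp X u φ : Finset V) : Set V)) +
        finrank (ZMod 2) (span (ZMod 2) (X : Set V))) + 2 := by omega
  rw [h3, pow_add]
  norm_num

theorem Exc.sign (h : Exc X u b) (φ : V →ₗ[ZMod 2] ZMod 2) (hφ : φ b = 1)
    (hp : Par X u b φ) : 0 < sg X u * cc X (hyp X u φ) := by
  rw [h.sg_eq φ hφ hp]
  exact cc_flat X _ (h.flatH φ hφ)

theorem Exc.ker (h : Exc X u b) (S : Finset V) (hS : Flat X S) (hbS : b ∉ S) :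
    ∃ ψ : V →ₗ[ZMod 2] ZMod 2, ψ b = 1 ∧ (∀ v ∈ S, ψ v = 0) :=
  exF S b fun h1 => hbS (hS.2 b h.hbX h1)

theorem hyp_union (φ : V →ₗ[ZMod 2] ZMod 2) :
    hyp X u φ ∪ insert b (one X u φ) = insert b (pos X u) := by
  ext v
  rw [Finset.mem_union, Finset.mem_insert, Finset.mem_insert, mem_hyp, mem_one]
  constructor
  · rintro (h1 | h1 | h1)
    · exact Or.inr h1.1
    · exact Or.inl h1
    · exact Or.inr h1.1
  · rintro (h1 | h1)
    · exact Or.inr (Or.inl h1)
    · rcases zmod2_cases (φ v) with h2 | h2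
      · exact Or.inl ⟨h1, h2⟩
      · exact Or.inr (Or.inr ⟨h1, h2⟩)

/-- **There is a cocircuit of weight zero which contains `b`.** -/
theorem Exc.exists_cocircuit (h : Exc X u b) (hn : ¬ NZu X u) :
    ∃ l : V →ₗ[ZMod 2] ZMod 2, l b = 1 ∧
      (∀ v ∈ X, l v = 1 → v ∈ pos X u ∨ v = b) ∧ lam X u l = - u b := by
  classical
  have hb0 : b ≠ 0 := fun h1 => h.h0 (h1 ▸ h.hbX)
  obtain ⟨φ, hφ, hmin⟩ := minF X u (fun φ => φ b = 1) (by
    obtain ⟨φ, h1, -⟩ := exF (∅ : Set V) b (by
      rw [span_empty, mem_bot]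
      exact hb0)
    exact ⟨φ, h1⟩)
  have hmin' : ∀ ψ : V →ₗ[ZMod 2] ZMod 2, ψ b = 1 → lam X u φ ≤ lam X u ψ := hmin
  have hpar : ∀ ψ : V →ₗ[ZMod 2] ZMod 2, ψ b = 1 → lam X u ψ = lam X u φ → Par X u b ψ := by
    intro ψ h1 h2
    refine par_of_min ψ h1 fun θ h3 _ => ?_
    rw [h2]
    exact hmin' θ h3
  have hpp : ∀ S : Finset V, 0 ≤ su u (pos X u \ S) := fun S =>
    Finset.sum_nonneg fun v hv => (mem_pos.1 (Finset.mem_sdiff.1 hv).1).2.le
  rcases lt_or_ge (- u b) (lam X u φ) with hlt | hge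
  · exfalso
    have h1 := level_cc X u hn (su u (pos X u) + u b)
    rw [Finset.sum_eq_single (insert b (pos X u))] at h1
    · have h2 := cc_flat X _ h.flatN
      rw [h1, mul_zero] at h2
      exact lt_irrefl _ h2
    · intro S hS hne
      rw [Finset.mem_filter, Finset.mem_powerset] at hS
      by_cases hfl : Flat X S
      · exfalso
        by_cases hbS : b ∈ S
        · exact hne ((bound_mem X u h.hu S hS.1 b hbS h.hb).2 hS.2)
        · obtain ⟨ψ, h3, h4⟩ := h.ker S hfl hbS
          have h5 := (bound_ker X u h.hu S hS.1 ψ h4).1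
          have h6 := hmin' ψ h3
          have h7 : su u S = su u (pos X u) + u b := hS.2
          omega
      · exact cc_nonflat X S hS.1 hfl
    · intro h2
      refine absurd ?_ h2
      rw [Finset.mem_filter, Finset.mem_powerset]
      refine ⟨h.flatN.1, ?_⟩
      rw [Finset.sum_insert h.bP, add_comm]
      rfl
  · obtain ⟨s, hs⟩ : ∃ s, s = su u (pos X u) - lam X u φ := ⟨_, rfl⟩
    obtain ⟨F, hF⟩ : ∃ F : Finset (Finset V),
        F = X.powerset.filter fun S => ∑ v ∈ S, u v = s := ⟨_, rfl⟩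
    have hFm : ∀ S, S ∈ F ↔ S ⊆ X ∧ su u S = s := by
      intro S
      rw [hF, Finset.mem_filter, Finset.mem_powerset]
      exact Iff.rfl
    have h1 : ∑ S ∈ F, cc X S = 0 := by
      rw [hF]
      exact level_cc X u hn s
    have hH : su u (hyp X u φ) = s := by
      have h2 := su_hyp X u φ
      omega
    have hHmem : hyp X u φ ∈ F := (hFm _).2 ⟨(h.flatH φ hφ).1, hH⟩
    have hnn : ∀ S ∈ F, S ≠ insert b (pos X u) → 0 ≤ sg X u * cc X S := by
      intro S hS hne
      rw [hFm] at hS
      by_cases hfl : Flat X S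
      · by_cases hbS : b ∈ S
        · exfalso
          have h3 := bound_mem X u h.hu S hS.1 b hbS h.hb
          have h4 := hpp S
          exact hne (h3.2 (by omega))
        · obtain ⟨ψ, h3, h4⟩ := h.ker S hfl hbS
          have h5 := bound_ker X u h.hu S hS.1 ψ h4
          have h6 := hmin' ψ h3
          rw [h5.2 (by omega)]
          exact (h.sign ψ h3 (hpar ψ h3 (by omega))).le
      · rw [cc_nonflat X S hS.1 hfl, mul_zero]
    have hsH := h.sign φ hφ (hpar φ hφ rfl)
    by_cases hNmem : insert b (pos X u) ∈ F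
    swap
    · exfalso
      have h2 : 0 < ∑ S ∈ F, sg X u * cc X S :=
        Finset.sum_pos' (fun S hS => hnn S hS fun h3 => hNmem (h3 ▸ hS)) ⟨_, hHmem, hsH⟩
      rw [← Finset.mul_sum, h1, mul_zero] at h2
      exact lt_irrefl _ h2
    have hlam : lam X u φ = - u b := by
      have h2 := ((hFm _).1 hNmem).2
      have h3 : su u (insert b (pos X u)) = u b + su u (pos X u) := by
        unfold su
        rw [Finset.sum_insert h.bP]
      omega
    have hbH : b ∉ hyp X u φ := fun h2 => h.bP (mem_hyp.1 h2).1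
    have hne : hyp X u φ ≠ insert b (pos X u) := by
      intro h2
      apply hbH
      rw [h2]
      exact Finset.mem_insert_self _ _
    have h2 : sg X u * cc X (hyp X u φ) + sg X u * cc X (insert b (pos X u)) ≤ 0 := by
      have h3 : ∑ S ∈ F, sg X u * cc X S = 0 := by
        rw [← Finset.mul_sum, h1, mul_zero]
      have h4 := Finset.add_sum_erase F (fun S => sg X u * cc X S) hNmem
      have h5 := Finset.add_sum_erase (F.erase (insert b (pos X u)))
        (fun S => sg X u * cc X S) (Finset.mem_erase.2 ⟨hne, hHmem⟩)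
      have h6 : 0 ≤ ∑ S ∈ (F.erase (insert b (pos X u))).erase (hyp X u φ),
          sg X u * cc X S := by
        refine Finset.sum_nonneg fun S hS => ?_
        rw [Finset.mem_erase, Finset.mem_erase] at hS
        exact hnn S hS.2.2 hS.2.1
      beta_reduce at h4 h5
      rw [h3] at h4
      linarith
    -- the class
    obtain ⟨C, hC⟩ : ∃ C : Finset V, C = insert b (one X u φ) := ⟨_, rfl⟩
    have hCX : C ⊆ X := by
      rw [hC]
      exact Finset.insert_subset h.hbX ((Finset.filter_subset _ _).trans (pos_sub X u))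
    have hbC : b ∈ C := by
      rw [hC]
      exact Finset.mem_insert_self _ _
    have hCone : ∀ c ∈ C, φ c = 1 := by
      intro c hc
      rw [hC, Finset.mem_insert] at hc
      rcases hc with rfl | hc
      · exact hφ
      · exact (mem_one.1 hc).2
    have hGX : hyp X u φ ⊆ X \ C := by
      intro v hv
      refine Finset.mem_sdiff.2 ⟨(h.flatH φ hφ).1 hv, fun h3 => ?_⟩
      have h4 := hCone v h3
      rw [(mem_hyp.1 hv).2] at h4
      exact zero_ne_one h4
    have hcp : ∀ c ∈ C, b + c ∈ span (ZMod 2) ((hyp X u φ : Finset V) : Set V) := by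
      intro c hc
      rw [hC, Finset.mem_insert] at hc
      rcases hc with rfl | hc
      · rw [add_self_two]
        exact zero_mem _
      · exact hpar φ hφ rfl c (mem_one.1 hc).1 (mem_one.1 hc).2
    have hpair := cc_pair X (hyp X u φ) C b hCX hbC hGX hcp
    rw [hC, hyp_union, ← hC] at hpair
    rw [← mul_add, hpair] at h2
    by_cases hsp : Spans ⊥ X (X \ C)
    · exfalso
      rw [if_pos hsp] at h2
      have hfl : Flat (X \ C) (hyp X u φ) :=
        ⟨hGX, fun v hv hvs => (h.flatH φ hφ).2 v (Finset.mem_sdiff.1 hv).1 hvs⟩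
      have h3 := cc_flat (X \ C) _ hfl
      unfold Spans at hsp
      rw [bot_sup_eq, bot_sup_eq] at hsp
      rw [hsp, ← h.sg_eq φ hφ (hpar φ hφ rfl)] at h3
      exact absurd h2 (not_le.2 h3)
    · have hsp' : span (ZMod 2) ((X \ C : Finset V) : Set V) ≠ span (ZMod 2) (X : Set V) := by
        intro h3
        apply hsp
        unfold Spans
        rw [h3]
      obtain ⟨l, hl0, v, hvX, hlv⟩ := functional X (X \ C) Finset.sdiff_subset hsp'
      have hvC : v ∈ C := by
        by_contra h3
        exact hlv (hl0 v (Finset.mem_sdiff.2 ⟨hvX, h3⟩))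
      have hlH : ∀ w ∈ ((hyp X u φ : Finset V) : Set V), l w = 0 := fun w hw =>
        hl0 w (hGX (Finset.mem_coe.1 hw))
      have hlC : ∀ c ∈ C, l b = l c := by
        intro c hc
        have h3 := zero_of_span _ (b + c) l hlH (hcp c hc)
        rw [map_add] at h3
        rcases zmod2_cases (l b) with h4 | h4 <;> rcases zmod2_cases (l c) with h5 | h5
        · rw [h4, h5]
        · rw [h4, h5] at h3
          exact absurd h3 (by decide)
        · rw [h4, h5] at h3
          exact absurd h3 (by decide)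
        · rw [h4, h5]
      have hlb : l b = 1 := by
        rw [hlC v hvC]
        exact (zmod2_cases (l v)).resolve_left hlv
      refine ⟨l, hlb, fun w hw hlw => ?_, ?_⟩
      · have h3 : w ∈ C := by
          by_contra h4
          rw [hl0 w (Finset.mem_sdiff.2 ⟨hw, h4⟩)] at hlw
          exact zero_ne_one hlw
        rw [hC, Finset.mem_insert] at h3
        rcases h3 with h3 | h3
        · exact Or.inr h3
        · exact Or.inl (mem_one.1 h3).1
      · rw [← hlam]
        unfold lam
        congr 1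
        ext w
        rw [mem_one, mem_one]
        constructor
        · rintro ⟨h3, h4⟩
          refine ⟨h3, (zmod2_cases (φ w)).resolve_left fun h5 => ?_⟩
          rw [hlH w (Finset.mem_coe.2 (mem_hyp.2 ⟨h3, h5⟩))] at h4
          exact zero_ne_one h4
        · rintro ⟨h3, h4⟩
          refine ⟨h3, ?_⟩
          rw [← hlC w ?_]
          · exact hlb
          · rw [hC]
            exact Finset.mem_insert_of_mem (mem_one.2 ⟨h3, h4⟩)

end Pool.Agent.NZX
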