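import Mathlib
import Pool.Agent.NZX.Coc

/-!
# NZX, module OneExc: one exceptional element (helper3)
-/

set_option autoImplicit false
set_option linter.unusedSectionVars false

open Submodule Module

namespace Pool.Agent.NZX

open Pool.Agent.SPT Pool.Agent.SPT.Rel Pool.Agent.SPT.Odd

variable {V : Type} [AddCommGroup V] [Module (ZMod 2) V] [DecidableEq V]
variable {X : Finset V} {u : V → ℤ} {b : V}

/-- the elements outside of the kernel of `l` are a parallel class modulo the elements of `S` in the
kernel -/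
def Paired (X : Finset V) (b : V) (l : V →ₗ[ZMod 2] ZMod 2) (S : Finset V) : Prop :=
  Flat X S ∧ ∀ c ∈ X, l c = 1 →
    b + c ∈ span (ZMod 2) ((S.filter fun v => l v = 0 : Finset V) : Set V)

theorem mem_of_add (K : Submodule (ZMod 2) V) {b c : V} (hb : b ∈ K) (h : b + c ∈ K) :
    c ∈ K := by
  have h1 : c = b + (b + c) := by
    rw [← add_assoc, add_self_two, zero_add]
  rw [h1]
  exact add_mem hb h

theorem mem_of_add' (K : Submodule (ZMod 2) V) {b c : V} (hc : c ∈ K) (h : b + c ∈ K) :
    b ∈ K := by
  have h1 : b = (b + c) + c := by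
    rw [add_assoc, add_self_two, add_zero]
  rw [h1]
  exact add_mem h hc

theorem span_filter_le (S : Finset V) (l : V →ₗ[ZMod 2] ZMod 2) :
    span (ZMod 2) ((S.filter fun v => l v = 0 : Finset V) : Set V) ≤
      span (ZMod 2) (S : Set V) :=
  span_mono (Finset.coe_subset.2 (Finset.filter_subset _ _))

theorem l_ne_one {l : V →ₗ[ZMod 2] ZMod 2} {v : V} (h : l v = 0) : l v ≠ 1 := by
  rw [h]
  exact zero_ne_one

section
variable {l : V →ₗ[ZMod 2] ZMod 2}

/-- the class -/
def cls (X : Finset V) (l : V →ₗ[ZMod 2] ZMod 2) : Finset V := X.filter fun v => l v = 1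

theorem mem_cls {v : V} : v ∈ cls X l ↔ v ∈ X ∧ l v = 1 := Finset.mem_filter

/-- the pair in the case `b ∈ S` -/
theorem Paired.mem {S : Finset V} (hS : Paired X b l S) (hbS : b ∈ S) :
    cls X l ⊆ S ∧ S \ cls X l = S.filter (fun v => l v = 0) ∧
      Paired X b l (S \ cls X l) := by
  have h1 : cls X l ⊆ S := by
    intro c hc
    rw [mem_cls] at hc
    refine hS.1.2 c hc.1 ?_
    exact mem_of_add _ (subset_span (Finset.mem_coe.2 hbS))
      (span_filter_le S l (hS.2 c hc.1 hc.2))
  have h2 : S \ cls X l = S.filter (fun v => l v = 0) := by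
    ext v
    rw [Finset.mem_sdiff, Finset.mem_filter, mem_cls]
    constructor
    · rintro ⟨h3, h4⟩
      refine ⟨h3, (zmod2_cases (l v)).resolve_right fun h5 => h4 ⟨hS.1.1 h3, h5⟩⟩
    · rintro ⟨h3, h4⟩
      exact ⟨h3, fun h5 => l_ne_one h4 h5.2⟩
  refine ⟨h1, h2, ?_⟩
  rw [h2]
  refine ⟨⟨(Finset.filter_subset _ _).trans hS.1.1, fun v hv hvs => ?_⟩, fun c hc hc1 => ?_⟩
  · refine Finset.mem_filter.2 ⟨hS.1.2 v hv (span_filter_le S l hvs), ?_⟩
    exact zero_of_span _ v l (fun w hw => (Finset.mem_filter.1 (Finset.mem_coe.1 hw)).2) hvs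
  · rw [Finset.filter_filter]
    have h3 : (S.filter fun v => l v = 0 ∧ l v = 0) = S.filter fun v => l v = 0 :=
      Finset.filter_congr fun v _ => and_self_iff
    rw [h3]
    exact hS.2 c hc hc1

/-- the pair in the case `b ∉ S` -/
theorem Paired.notMem (hb : b ∈ X) (hlb : l b = 1) {S : Finset V} (hS : Paired X b l S)
    (hbS : b ∉ S) : S ⊆ X \ cls X l ∧ S.filter (fun v => l v = 0) = S ∧
      Paired X b l (S ∪ cls X l) := by
  have h0 : ∀ v ∈ S, l v = 0 := by
    intro c hc
    refine (zmod2_cases (l c)).resolve_right fun h1 => hbS ?_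
    refine hS.1.2 b hb ?_
    exact mem_of_add' _ (subset_span (Finset.mem_coe.2 hc))
      (span_filter_le S l (hS.2 c (hS.1.1 hc) h1))
  have h1 : S ⊆ X \ cls X l := by
    intro v hv
    refine Finset.mem_sdiff.2 ⟨hS.1.1 hv, fun h2 => l_ne_one (h0 v hv) (mem_cls.1 h2).2⟩
  have h2 : S.filter (fun v => l v = 0) = S := Finset.filter_true_of_mem h0
  have h3 : (S ∪ cls X l).filter (fun v => l v = 0) = S := by
    ext v
    rw [Finset.mem_filter, Finset.mem_union, mem_cls]
    constructor
    · rintro ⟨h4 | h4, h5⟩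
      · exact h4
      · exact absurd h4.2 (l_ne_one h5)
    · exact fun h4 => ⟨Or.inl h4, h0 v h4⟩
  have hc0 := hS.2
  rw [h2] at hc0
  refine ⟨h1, h2, ⟨Finset.union_subset hS.1.1 (Finset.filter_subset _ _), fun v hv hvs => ?_⟩,
    fun c hc hc1 => ?_⟩
  · have h4 : span (ZMod 2) ((S ∪ cls X l : Finset V) : Set V) ≤
        span (ZMod 2) (S : Set V) ⊔ span (ZMod 2) {b} := by
      rw [span_le]
      intro w hw
      rw [Finset.mem_coe, Finset.mem_union] at hw
      rcases hw with hw | hw
      · exact mem_sup_left (subset_span (Finset.mem_coe.2 hw))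
      · rw [mem_cls] at hw
        exact mem_of_add _ (mem_sup_right (mem_span_singleton_self b))
          (mem_sup_left (hc0 w hw.1 hw.2))
    rcases mem_sup_one _ b v (h4 hvs) with h5 | h5
    · exact Finset.mem_union_left _ (hS.1.2 v hv h5)
    · refine Finset.mem_union_right _ (mem_cls.2 ⟨hv, ?_⟩)
      have h6 := zero_of_span _ (v + b) l (fun w hw => h0 w (Finset.mem_coe.1 hw)) h5
      rw [map_add, hlb] at h6
      rcases zmod2_cases (l v) with h7 | h7
      · rw [h7] at h6
        exact absurd h6 (by decide)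
      · exact h7
  · rw [h3]
    exact hc0 c hc hc1

/-- the polynomial does not vanish if there is a cocircuit of weight zero -/
theorem Exc.cocircuit_false (h : Exc X u b) (hn : ¬ NZu X u) (hlb : l b = 1)
    (hlN : ∀ v ∈ X, l v = 1 → v ∈ pos X u ∨ v = b) (hlam : lam X u l = - u b) : False := by
  classical
  have hbX := h.hbX
  have hbn := h.hb
  have hb0 : b ≠ 0 := fun h1 => h.h0 (h1 ▸ hbX)
  obtain ⟨C, hC⟩ : ∃ C : Finset V, C = cls X l := ⟨_, rfl⟩
  have hCins : C = insert b (one X u l) := by
    ext v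
    rw [hC, mem_cls, Finset.mem_insert, mem_one]
    constructor
    · rintro ⟨h1, h2⟩
      rcases hlN v h1 h2 with h3 | h3
      · exact Or.inr ⟨h3, h2⟩
      · exact Or.inl h3
    · rintro (h1 | h1)
      · rw [h1]
        exact ⟨hbX, hlb⟩
      · exact ⟨pos_sub X u h1.1, h1.2⟩
  have hbone : b ∉ one X u l := fun h1 => h.bP (mem_one.1 h1).1
  have hsuC : su u C = 0 := by
    have h1 : su u (insert b (one X u l)) = u b + lam X u l := by
      unfold lam su
      rw [Finset.sum_insert hbone]
    rw [hCins, h1]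
    omega
  have hCX : C ⊆ X := by
    rw [hC]
    exact Finset.filter_subset _ _
  have hbC : b ∈ C := by
    rw [hCins]
    exact Finset.mem_insert_self _ _
  have hCns : ¬ Spans ⊥ X (X \ C) := by
    unfold Spans
    rw [bot_sup_eq, bot_sup_eq]
    refine kernel X C l b hbX (by rw [hlb]; exact one_ne_zero) fun w hw hwC => ?_
    refine (zmod2_cases (l w)).resolve_right fun h1 => hwC ?_
    rw [hC]
    exact mem_cls.2 ⟨hw, h1⟩
  -- the second smallest functionals
  obtain ⟨φ, hφ, hmin⟩ := minF X u
    (fun φ => φ b = 1 ∧ ∃ c ∈ pos X u, l c = 1 ∧ φ c = 0) (by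
      have h1 : (one X u l).Nonempty := by
        rw [Finset.nonempty_iff_ne_empty]
        intro h2
        unfold lam at hlam
        rw [h2] at hlam
        unfold su at hlam
        rw [Finset.sum_empty] at hlam
        omega
      obtain ⟨c, hc⟩ := h1
      rw [mem_one] at hc
      have hcb : c ≠ b := fun h2 => h.bP (h2 ▸ hc.1)
      obtain ⟨φ, h2, h3⟩ := exF ({c} : Set V) b (by
        intro h4
        rw [mem_span_singleton] at h4
        obtain ⟨k, hk⟩ := h4
        rcases zmod2_cases k with rfl | rfl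
        · rw [zero_smul] at hk
          exact hb0 hk.symm
        · rw [one_smul] at hk
          exact hcb hk)
      exact ⟨φ, h2, c, hc.1, hc.2, h3 c rfl⟩)
  obtain ⟨hφb, c₀, hc₀, hlc₀, hφc₀⟩ := hφ
  have hmin' : ∀ ψ : V →ₗ[ZMod 2] ZMod 2, ψ b = 1 → (∃ c ∈ pos X u, l c = 1 ∧ ψ c = 0) →
      lam X u φ ≤ lam X u ψ := fun ψ h1 h2 => hmin ψ ⟨h1, h2⟩
  have hpar : ∀ ψ : V →ₗ[ZMod 2] ZMod 2, ψ b = 1 → (∃ c ∈ pos X u, l c = 1 ∧ ψ c = 0) →
      lam X u ψ = lam X u φ → Par X u b ψ := by
    rintro ψ h1 ⟨c, hc, hc1, hc2⟩ h2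
    refine par_of_min ψ h1 fun θ h3 h4 => ?_
    rw [h2]
    exact hmin' θ h3 ⟨c, hc, hc1, h4 c hc hc2⟩
  obtain ⟨s, hs⟩ : ∃ s, s = su u (pos X u) - lam X u φ := ⟨_, rfl⟩
  obtain ⟨F, hF⟩ : ∃ F : Finset (Finset V),
      F = X.powerset.filter fun S => ∑ v ∈ S, u v = s := ⟨_, rfl⟩
  have hFm : ∀ S, S ∈ F ↔ S ⊆ X ∧ su u S = s := by
    intro S
    rw [hF, Finset.mem_filter, Finset.mem_powerset]
    exact Iff.rfl
  have hsum : ∑ S ∈ F, cc X S = 0 := by
    rw [hF]
    exact level_cc X u hn s
  -- the paired flats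
  have hp0 : ∑ S ∈ F.filter (Paired X b l), cc X S = 0 := by
    have hmemF : ∀ S, S ∈ F.filter (Paired X b l) ↔ (S ⊆ X ∧ su u S = s) ∧ Paired X b l S := by
      intro S
      rw [Finset.mem_filter, hFm]
    refine Finset.sum_involution (fun S _ => if b ∈ S then S \ C else S ∪ C) ?_ ?_ ?_ ?_
    · intro S hS
      rw [hmemF] at hS
      by_cases hbS : b ∈ S
      · rw [if_pos hbS]
        obtain ⟨h1, h2, h3⟩ := hS.2.mem hbS
        rw [← hC] at h1 h2 h3
        have h4 := cc_pair X (S \ C) C b hCX hbC
          (Finset.sdiff_subset_sdiff hS.1.1 (Finset.Subset.refl C)) (fun c hc => by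
            rw [h2]
            rw [hC, mem_cls] at hc
            exact hS.2.2 c hc.1 hc.2)
        rw [if_neg hCns, Finset.sdiff_union_of_subset h1] at h4
        rw [add_comm]
        exact h4
      · rw [if_neg hbS]
        obtain ⟨h1, h2, h3⟩ := hS.2.notMem hbX hlb hbS
        rw [← hC] at h1 h3
        have h4 := cc_pair X S C b hCX hbC h1 (fun c hc => by
            rw [hC, mem_cls] at hc
            have h5 := hS.2.2 c hc.1 hc.2
            rw [h2] at h5
            exact h5)
        rw [if_neg hCns] at h4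
        exact h4
    · intro S hS _ h1
      by_cases hbS : b ∈ S
      · rw [if_pos hbS] at h1
        rw [← h1] at hbS
        exact (Finset.mem_sdiff.1 hbS).2 hbC
      · rw [if_neg hbS] at h1
        rw [← h1] at hbS
        exact hbS (Finset.mem_union_right _ hbC)
    · intro S hS
      rw [hmemF] at hS
      by_cases hbS : b ∈ S
      · rw [if_pos hbS, hmemF]
        obtain ⟨h1, h2, h3⟩ := hS.2.mem hbS
        rw [← hC] at h1 h2 h3
        refine ⟨⟨h3.1.1, ?_⟩, h3⟩
        have h4 : su u (S \ C) + su u C = su u S := by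
          unfold su
          rw [Finset.sum_sdiff h1]
        omega
      · rw [if_neg hbS, hmemF]
        obtain ⟨h1, h2, h3⟩ := hS.2.notMem hbX hlb hbS
        rw [← hC] at h1 h3
        refine ⟨⟨h3.1.1, ?_⟩, h3⟩
        have h4 : su u (S ∪ C) = su u S + su u C := by
          unfold su
          rw [Finset.sum_union]
          rw [Finset.disjoint_left]
          intro v hv hv2
          exact (Finset.mem_sdiff.1 (h1 hv)).2 hv2
        omega
    · intro S hS
      rw [hmemF] at hS
      by_cases hbS : b ∈ S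
      · have h4 : b ∉ S \ C := fun h5 => (Finset.mem_sdiff.1 h5).2 hbC
        obtain ⟨h1, h2, h3⟩ := hS.2.mem hbS
        rw [← hC] at h1 h2 h3
        simp only [if_pos hbS, if_neg h4]
        exact Finset.sdiff_union_of_subset h1
      · have h4 : b ∈ S ∪ C := Finset.mem_union_right _ hbC
        obtain ⟨h1, h2, h3⟩ := hS.2.notMem hbX hlb hbS
        rw [← hC] at h1 h3
        simp only [if_neg hbS, if_pos h4]
        rw [Finset.union_sdiff_right, Finset.sdiff_eq_self_iff_disjoint, Finset.disjoint_left]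
        intro v hv hv2
        exact (Finset.mem_sdiff.1 (h1 hv)).2 hv2
  -- the other flats
  have hrest : ∑ S ∈ F.filter (fun S => ¬ Paired X b l S), cc X S = 0 := by
    have h1 := Finset.sum_filter_add_sum_filter_not F (Paired X b l) (fun S => cc X S)
    rw [hp0, hsum, zero_add] at h1
    exact h1
  have hpos : 0 < ∑ S ∈ F.filter (fun S => ¬ Paired X b l S), sg X u * cc X S := by
    refine Finset.sum_pos' (fun S hS => ?_) ⟨hyp X u φ, ?_,
      h.sign φ hφb (hpar φ hφb ⟨c₀, hc₀, hlc₀, hφc₀⟩ rfl)⟩
    · rw [Finset.mem_filter, hFm] at hS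
      obtain ⟨⟨hSX, hSs⟩, hnp⟩ := hS
      by_cases hfl : Flat X S
      swap
      · rw [cc_nonflat X S hSX hfl, mul_zero]
      have hex : ∃ c ∈ X, l c = 1 ∧
          b + c ∉ span (ZMod 2) ((S.filter fun v => l v = 0 : Finset V) : Set V) := by
        by_contra hno
        push Not at hno
        exact hnp ⟨hfl, hno⟩
      obtain ⟨c, hcX, hlc, hcn⟩ := hex
      by_cases hbS : b ∈ S
      · exfalso
        -- the value is too small
        obtain ⟨ψ, h1, h2, h3⟩ := exF' _ l b c
          (fun w hw => (Finset.mem_filter.1 (Finset.mem_coe.1 hw)).2) hlb hlc hcn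
        have hcb : c ≠ b := by
          intro h4
          rw [h4, h1] at h2
          exact one_ne_zero h2
        have hcP : c ∈ pos X u := (hlN c hcX hlc).resolve_right hcb
        have h4 := hmin' ψ h1 ⟨c, hcP, hlc, h2⟩
        have h5 := bound_mem X u h.hu S hSX b hbS hbn
        -- lam ψ ≤ su (P \ S) + su (one l \ {c})
        have h6 : one X u ψ ⊆ (pos X u \ S) ∪ (one X u l).erase c := by
          intro v hv
          rw [mem_one] at hv
          rw [Finset.mem_union, Finset.mem_sdiff, Finset.mem_erase, mem_one]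
          by_cases hvS : v ∈ S
          · right
            refine ⟨fun h7 => ?_, hv.1, (zmod2_cases (l v)).resolve_left fun h7 => ?_⟩
            · rw [h7, h2] at hv
              exact zero_ne_one hv.2
            · rw [h3 v (Finset.mem_coe.2 (Finset.mem_filter.2 ⟨hvS, h7⟩))] at hv
              exact zero_ne_one hv.2
          · exact Or.inl ⟨hv.1, hvS⟩
        have h7 : su u ((pos X u \ S) ∪ (one X u l).erase c) ≤
            su u (pos X u \ S) + su u ((one X u l).erase c) := by
          have h8 : su u ((pos X u \ S) ∪ (one X u l).erase c) +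
              su u ((pos X u \ S) ∩ (one X u l).erase c) =
              su u (pos X u \ S) + su u ((one X u l).erase c) := by
            unfold su
            exact Finset.sum_union_inter
          have h9 : 0 ≤ su u ((pos X u \ S) ∩ (one X u l).erase c) :=
            Finset.sum_nonneg fun v hv =>
              (mem_pos.1 (Finset.mem_sdiff.1 (Finset.mem_inter.1 hv).1).1).2.le
          omega
        have h8 : lam X u ψ ≤ su u ((pos X u \ S) ∪ (one X u l).erase c) := by
          refine (su_le_pos (u := u) h6 fun v hv _ => ?_).1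
          rw [Finset.mem_union, Finset.mem_sdiff, Finset.mem_erase, mem_one] at hv
          rcases hv with hv | hv
          · exact (mem_pos.1 hv.1).2
          · exact (mem_pos.1 hv.2.1).2
        have h9 : u c + su u ((one X u l).erase c) = lam X u l := by
          unfold lam su
          exact Finset.add_sum_erase _ _ (mem_one.2 ⟨hcP, hlc⟩)
        have h10 := (mem_pos.1 hcP).2
        omega
      · -- a functional in the class
        have hex2 : ∃ ψ : V →ₗ[ZMod 2] ZMod 2, ψ b = 1 ∧
            (∃ c ∈ pos X u, l c = 1 ∧ ψ c = 0) ∧ ∀ v ∈ S, ψ v = 0 := by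
          by_cases h1 : ∃ c' ∈ S, l c' = 1
          · obtain ⟨c', hc'S, hlc'⟩ := h1
            obtain ⟨ψ, h2, h3⟩ := h.ker S hfl hbS
            have hcb : c' ≠ b := fun h4 => hbS (h4 ▸ hc'S)
            exact ⟨ψ, h2, ⟨c', (hlN c' (hSX hc'S) hlc').resolve_right hcb, hlc', h3 c' hc'S⟩, h3⟩
          · push Not at h1
            have h2 : S.filter (fun v => l v = 0) = S :=
              Finset.filter_true_of_mem fun v hv => (zmod2_cases (l v)).resolve_right (h1 v hv)
            rw [h2] at hcn
            obtain ⟨ψ, h3, h4, h5⟩ := exF' _ l b c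
              (fun w hw => (zmod2_cases (l w)).resolve_right (h1 w (Finset.mem_coe.1 hw)))
              hlb hlc hcn
            have hcb : c ≠ b := by
              intro h6
              rw [h6, h3] at h4
              exact one_ne_zero h4
            exact ⟨ψ, h3, ⟨c, (hlN c hcX hlc).resolve_right hcb, hlc, h4⟩,
              fun v hv => h5 v (Finset.mem_coe.2 hv)⟩
        obtain ⟨ψ, h1, h2, h3⟩ := hex2
        have h4 := hmin' ψ h1 h2
        have h5 := bound_ker X u h.hu S hSX ψ h3
        rw [h5.2 (by omega)]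
        exact (h.sign ψ h1 (hpar ψ h1 h2 (by omega))).le
    · rw [Finset.mem_filter, hFm]
      refine ⟨⟨(h.flatH φ hφb).1, ?_⟩, fun h1 => ?_⟩
      · have h2 := su_hyp X u φ
        omega
      · have h2 := h1.2 c₀ (pos_sub X u hc₀) hlc₀
        have h3 := zero_of_span _ (b + c₀) φ (fun w hw =>
          hyp_ker φ w (Finset.mem_coe.2 (Finset.filter_subset _ _ (Finset.mem_coe.1 hw)))) h2
        rw [map_add, hφb, hφc₀, add_zero] at h3
        exact one_ne_zero h3
  rw [← Finset.mul_sum, hrest, mul_zero] at hpos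
  exact lt_irrefl _ hpos

end

/-- **One exceptional element**: the polynomial of the spanning sets does not vanish if no element of
negative weight, with at most one exception, is in the span of the elements of positive weight. -/
theorem NZu_oneExc (X : Finset V) (h0 : (0 : V) ∉ X) (u : V → ℤ) (hu : ∀ v ∈ X, u v ≠ 0)
    (b : V) (hb : ∀ v ∈ X, u v < 0 → v ≠ b →
      v ∉ span (ZMod 2) {x | x ∈ X ∧ 0 < u x}) : NZu X u := by
  classical
  by_contra hn
  have hset : {x | x ∈ X ∧ 0 < u x} = ((pos X u : Finset V) : Set V) := by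
    ext v
    rw [Finset.mem_coe, mem_pos]
    exact Iff.rfl
  rw [hset] at hb
  by_cases hex : b ∈ X ∧ u b < 0 ∧ b ∈ span (ZMod 2) ((pos X u : Finset V) : Set V)
  · have h : Exc X u b := by
      refine ⟨h0, hu, hex.1, hex.2.1, hex.2.2, fun v hv hvs => ?_⟩
      by_cases hvb : v = b
      · exact Or.inr hvb
      · left
        refine mem_pos.2 ⟨hv, ?_⟩
        by_contra h1
        have h2 := hu v hv
        exact hb v hv (by omega) hvb hvs
    obtain ⟨l, h1, h2, h3⟩ := h.exists_cocircuit hn
    exact h.cocircuit_false hn h1 h2 h3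
  · -- no exception
    have hfl : Flat X (pos X u) := by
      refine ⟨pos_sub X u, fun v hv hvs => ?_⟩
      refine mem_pos.2 ⟨hv, ?_⟩
      by_contra h1
      have h2 := hu v hv
      by_cases hvb : v = b
      · exact hex ⟨hvb ▸ hv, by rw [← hvb]; omega, hvb ▸ hvs⟩
      · exact hb v hv (by omega) hvb hvs
    have h1 := level_cc X u hn (su u (pos X u))
    rw [Finset.sum_eq_single (pos X u)] at h1
    · have h2 := cc_flat X _ hfl
      rw [h1, mul_zero] at h2
      exact lt_irrefl _ h2
    · intro S hS hne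
      rw [Finset.mem_filter, Finset.mem_powerset] at hS
      exfalso
      apply hne
      have h3 := su_le_neg (u := u) (A := S ∩ pos X u) (B := S) Finset.inter_subset_left
        fun v hv hv2 => by
          have h2 := hu v (hS.1 hv)
          by_contra h3
          exact hv2 (Finset.mem_inter.2 ⟨hv, mem_pos.2 ⟨hS.1 hv, by omega⟩⟩)
      have h4 := su_le_pos (u := u) (A := S ∩ pos X u) (B := pos X u) Finset.inter_subset_right
        fun v hv _ => (mem_pos.1 hv).2
      have h5 : su u S = su u (pos X u) := hS.2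
      rw [← h3.2 (by omega), h4.2 (by omega)]
    · intro h2
      refine absurd ?_ h2
      rw [Finset.mem_filter, Finset.mem_powerset]
      exact ⟨pos_sub X u, rfl⟩

end Pool.Agent.NZX
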